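import Mathlib

/-!
MP_d9606f_gt, dimension theorem, Part 0.2 (helper68; proved).  The base of the suspension, for an
abstract topological group `G`: `K` is an open subgroup, `Γ` a subgroup, `K ∩ g Γ g⁻¹ = 1` for all
`g`, and there are finitely many double cosets `K r Γ`.  `SF = ⋃ K r`; every `g` is uniquely
`pp g * cc g` with `pp g ∈ SF` and `cc g ∈ Γ`; `G` acts on `SF` by `g • f = pp (g f)` with the
cocycle `cc (g f)`.
-/

open MeasureTheory Filter
open scoped Topology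

namespace Pool.Agent.H68.SU

noncomputable section

variable {G : Type} [Group G]

/-- Representatives of the double cosets `K g Γ`. -/
structure Rp (K Γ : Subgroup G) (rep : G → G) : Prop where
  ex : ∀ g : G, ∃ k ∈ K, ∃ γ ∈ Γ, g = k * rep g * γ
  eq : ∀ g : G, ∀ k ∈ K, ∀ γ ∈ Γ, rep (k * g * γ) = rep g
  fin : (Set.range rep).Finite
  free : ∀ g : G, ∀ γ ∈ Γ, g * γ * g⁻¹ ∈ K → γ = 1

/-- The set `F = ⋃ K r`. -/
def SF (K : Subgroup G) (rep : G → G) : Set G := {g | ∃ k ∈ K, g = k * rep g}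

variable {K Γ : Subgroup G} {rep : G → G}

theorem exists_Rp (T : Finset G) (hT : ∀ g : G, ∃ k ∈ K, ∃ t ∈ T, ∃ γ ∈ Γ, g = k * t * γ)
    (hfree : ∀ g : G, ∀ γ ∈ Γ, g * γ * g⁻¹ ∈ K → γ = 1) : ∃ rep : G → G, Rp K Γ rep := by
  let s : Setoid G :=
    { r := fun g g' => ∃ k ∈ K, ∃ γ ∈ Γ, g' = k * g * γ
      iseqv :=
        { refl := fun g => ⟨1, one_mem _, 1, one_mem _, by group⟩
          symm := by
            rintro g g' ⟨k, hk, γ, hγ, rfl⟩
            exact ⟨k⁻¹, inv_mem hk, γ⁻¹, inv_mem hγ, by group⟩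
          trans := by
            rintro g g' g'' ⟨k, hk, γ, hγ, rfl⟩ ⟨k', hk', γ', hγ', rfl⟩
            exact ⟨k' * k, mul_mem hk' hk, γ * γ', mul_mem hγ hγ', by group⟩ } }
  let rep : G → G := fun g => (Quotient.mk s g).out
  have hout : ∀ g, ∃ k ∈ K, ∃ γ ∈ Γ, g = k * rep g * γ := fun g => Quotient.exact (Quotient.out_eq
    (Quotient.mk s g))
  have heq : ∀ g g' : G, (∃ k ∈ K, ∃ γ ∈ Γ, g' = k * g * γ) → rep g' = rep g := by
    intro g g' h
    have h1 : Quotient.mk s g = Quotient.mk s g' := Quotient.sound h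
    change (Quotient.mk s g').out = (Quotient.mk s g).out
    rw [h1]
  refine ⟨rep, hout, fun g k hk γ hγ => heq g _ ⟨k, hk, γ, hγ, rfl⟩, ?_, hfree⟩
  refine (T.finite_toSet.image rep).subset ?_
  rintro _ ⟨g, rfl⟩
  obtain ⟨k, hk, t, ht, γ, hγ, h⟩ := hT g
  exact ⟨t, ht, (heq t g ⟨k, hk, γ, hγ, h⟩).symm⟩

namespace Rp

theorem idem (hR : Rp K Γ rep) (g : G) : rep (rep g) = rep g := by
  obtain ⟨k, hk, γ, hγ, h⟩ := hR.ex g
  have h1 := hR.eq (rep g) k hk γ hγ
  rw [← h] at h1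
  exact h1.symm

theorem left (hR : Rp K Γ rep) {g k : G} (hk : k ∈ K) : rep (k * g) = rep g := by
  have h1 := hR.eq g k hk 1 (one_mem _)
  rwa [mul_one] at h1

theorem right (hR : Rp K Γ rep) {g γ : G} (hγ : γ ∈ Γ) : rep (g * γ) = rep g := by
  have h1 := hR.eq g 1 (one_mem _) γ hγ
  rwa [one_mul] at h1

theorem left_mem (hR : Rp K Γ rep) {g k : G} (hk : k ∈ K) (hg : g ∈ SF K rep) :
    k * g ∈ SF K rep := by
  obtain ⟨k', hk', h⟩ := hg
  refine ⟨k * k', mul_mem hk hk', ?_⟩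
  rw [hR.left hk, mul_assoc, ← h]

theorem uniq (hR : Rp K Γ rep) {f f' : G} (hf : f ∈ SF K rep) (hf' : f' ∈ SF K rep) {γ γ' : Γ}
    (h : f * (γ : G) = f' * (γ' : G)) : f = f' ∧ γ = γ' := by
  obtain ⟨k, hk, hk2⟩ := hf
  obtain ⟨k', hk', hk2'⟩ := hf'
  have h1 : rep f = rep f' := by
    rw [← hR.right (g := f) γ.2, ← hR.right (g := f') γ'.2, h]
  have h2 : rep f * ((γ : G) * (γ' : G)⁻¹) * (rep f)⁻¹ = k⁻¹ * k' := by
    have h3 : k * rep f * (γ : G) = k' * rep f * (γ' : G) := by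
      rw [← hk2, h]
      congr 1
      rw [h1, ← hk2']
    have h4 : rep f * (γ : G) = k⁻¹ * (k' * rep f * (γ' : G)) := by
      rw [← h3]
      group
    calc rep f * ((γ : G) * (γ' : G)⁻¹) * (rep f)⁻¹
        = (rep f * (γ : G)) * (γ' : G)⁻¹ * (rep f)⁻¹ := by group
      _ = k⁻¹ * k' := by rw [h4]; group
  have h5 : (γ : G) * (γ' : G)⁻¹ = 1 := hR.free (rep f) _ (mul_mem γ.2 (inv_mem γ'.2))
    (by rw [h2]; exact mul_mem (inv_mem hk) hk')
  have h6 : (γ : G) = γ' := mul_inv_eq_one.1 h5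
  refine ⟨?_, Subtype.ext h6⟩
  rw [h6] at h
  exact mul_right_cancel h

theorem exists_dec (hR : Rp K Γ rep) (g : G) : ∃ γ : Γ, g * (γ : G)⁻¹ ∈ SF K rep := by
  obtain ⟨k, hk, γ, hγ, h⟩ := hR.ex g
  refine ⟨⟨γ, hγ⟩, k, hk, ?_⟩
  rw [hR.right (inv_mem hγ)]
  change g * γ⁻¹ = k * rep g
  rw [mul_inv_eq_iff_eq_mul]
  exact h

/-- The component of `g` in `Γ`. -/
def cc (hR : Rp K Γ rep) (g : G) : Γ := (hR.exists_dec g).choose

/-- The component of `g` in `SF`. -/
def pp (hR : Rp K Γ rep) (g : G) : SF K rep := ⟨g * (hR.cc g : G)⁻¹, (hR.exists_dec g).choose_spec⟩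

theorem dec (hR : Rp K Γ rep) (g : G) : (hR.pp g : G) * (hR.cc g : G) = g := by
  change g * (hR.cc g : G)⁻¹ * (hR.cc g : G) = g
  group

theorem dec_uniq (hR : Rp K Γ rep) {g : G} (f : SF K rep) (γ : Γ) (h : (f : G) * (γ : G) = g) :
    hR.pp g = f ∧ hR.cc g = γ := by
  have h1 := hR.uniq (hR.pp g).2 f.2 ((hR.dec g).trans h.symm)
  exact ⟨Subtype.ext h1.1, h1.2⟩

theorem cc_left (hR : Rp K Γ rep) {g k : G} (hk : k ∈ K) : hR.cc (k * g) = hR.cc g ∧
    (hR.pp (k * g) : G) = k * (hR.pp g : G) := by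
  have h1 := hR.dec_uniq (g := k * g) ⟨k * (hR.pp g : G), hR.left_mem hk (hR.pp g).2⟩ (hR.cc g) (by
    change k * (hR.pp g : G) * (hR.cc g : G) = k * g
    rw [mul_assoc, hR.dec])
  exact ⟨h1.2, by rw [h1.1]⟩

/-- The action on the base. -/
@[reducible] def act (hR : Rp K Γ rep) : MulAction G (SF K rep) where
  smul g f := hR.pp (g * (f : G))
  one_smul f := (hR.dec_uniq (g := 1 * (f : G)) f 1 (by simp)).1
  mul_smul g g' f := by
    change hR.pp (g * g' * (f : G)) = hR.pp (g * (hR.pp (g' * (f : G)) : G))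
    refine (hR.dec_uniq (hR.pp (g * (hR.pp (g' * (f : G)) : G)))
      (hR.cc (g * (hR.pp (g' * (f : G)) : G)) * hR.cc (g' * (f : G))) ?_).1
    rw [Subgroup.coe_mul, ← mul_assoc, hR.dec, mul_assoc, hR.dec, mul_assoc]

/-- The cocycle. -/
def al (hR : Rp K Γ rep) (g : G) (f : SF K rep) : Γ := hR.cc (g * (f : G))

theorem al_mul (hR : Rp K Γ rep) (g g' : G) (f : SF K rep) :
    hR.al (g * g') f = hR.al g (hR.pp (g' * (f : G))) * hR.al g' f := by
  refine (hR.dec_uniq (hR.pp (g * (hR.pp (g' * (f : G)) : G)))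
    (hR.al g (hR.pp (g' * (f : G))) * hR.al g' f) ?_).2
  rw [Subgroup.coe_mul, ← mul_assoc]
  unfold al
  rw [hR.dec, mul_assoc, hR.dec, mul_assoc]

theorem al_one (hR : Rp K Γ rep) {k : G} (hk : k ∈ K) (f : SF K rep) : hR.al k f = 1 :=
  (hR.dec_uniq (g := k * (f : G)) ⟨k * (f : G), hR.left_mem hk f.2⟩ 1 (by simp)).2

theorem pp_left (hR : Rp K Γ rep) {k : G} (hk : k ∈ K) (f : SF K rep) :
    (hR.pp (k * (f : G)) : G) = k * (f : G) := by
  rw [(hR.dec_uniq (g := k * (f : G)) ⟨k * (f : G), hR.left_mem hk f.2⟩ 1 (by simp)).1]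

theorem pp_self (hR : Rp K Γ rep) (f : SF K rep) : hR.pp (f : G) = f :=
  (hR.dec_uniq (g := (f : G)) f 1 (by simp)).1

section Top

variable [TopologicalSpace G] [IsTopologicalGroup G]

theorem nhds_K (hK : IsOpen (K : Set G)) (g : G) : ∀ᶠ g' in 𝓝 g, g' * g⁻¹ ∈ K := by
  have h1 : IsOpen {x : G | x * g⁻¹ ∈ K} := hK.preimage (continuous_mul_const g⁻¹)
  refine h1.mem_nhds ?_
  simp only [Set.mem_ofPred_eq, mul_inv_cancel]
  exact one_mem _

theorem isOpen_SF (hR : Rp K Γ rep) (hK : IsOpen (K : Set G)) : IsOpen (SF K rep) := by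
  rw [isOpen_iff_mem_nhds]
  intro g hg
  filter_upwards [nhds_K hK g] with g' hg'
  have h1 := hR.left_mem hg' hg
  rwa [inv_mul_cancel_right] at h1

theorem isCompact_SF (hR : Rp K Γ rep) (hK : IsCompact (K : Set G)) : IsCompact (SF K rep) := by
  have e : SF K rep = ⋃ r ∈ Set.range rep, (fun x : G => x * r) '' (K : Set G) := by
    ext g
    simp only [Set.mem_iUnion, Set.mem_image, SetLike.mem_coe]
    constructor
    · rintro ⟨k, hk, h⟩
      exact ⟨rep g, ⟨g, rfl⟩, k, hk, h.symm⟩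
    · rintro ⟨r, ⟨g', rfl⟩, k, hk, rfl⟩
      refine ⟨k, hk, ?_⟩
      rw [hR.left hk, hR.idem]
  rw [e]
  exact hR.fin.isCompact_biUnion fun r _ => hK.image (continuous_mul_const r)

theorem cc_loc (hR : Rp K Γ rep) (hK : IsOpen (K : Set G)) (g : G) :
    ∀ᶠ g' in 𝓝 g, hR.cc g' = hR.cc g := by
  filter_upwards [nhds_K hK g] with g' hg'
  have h1 := (hR.cc_left (g := g) hg').1
  rwa [inv_mul_cancel_right] at h1

theorem pp_cont (hR : Rp K Γ rep) (hK : IsOpen (K : Set G)) : Continuous hR.pp := by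
  rw [continuous_iff_continuousAt]
  intro g
  rw [Topology.IsInducing.subtypeVal.continuousAt_iff]
  have h1 : ContinuousAt (fun g' : G => g' * (hR.cc g : G)⁻¹) g :=
    (continuous_mul_const _).continuousAt
  refine h1.congr ?_
  filter_upwards [hR.cc_loc hK g] with g' hg'
  change g' * (hR.cc g : G)⁻¹ = g' * (hR.cc g' : G)⁻¹
  rw [hg']

theorem al_loc (hR : Rp K Γ rep) (hK : IsOpen (K : Set G)) (g : G) (f : SF K rep) :
    ∀ᶠ q : G × SF K rep in 𝓝 (g, f), hR.al q.1 q.2 = hR.al g f := by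
  have h1 : Continuous fun q : G × SF K rep => q.1 * (q.2 : G) :=
    continuous_fst.mul (continuous_subtype_val.comp continuous_snd)
  have h2 : Tendsto (fun q : G × SF K rep => q.1 * (q.2 : G)) (𝓝 (g, f)) (𝓝 (g * (f : G))) :=
    h1.tendsto (g, f)
  exact h2.eventually (hR.cc_loc hK (g * (f : G)))

theorem act_cont (hR : Rp K Γ rep) (hK : IsOpen (K : Set G)) :
    Continuous fun q : G × SF K rep => hR.pp (q.1 * (q.2 : G)) :=
  (hR.pp_cont hK).comp (continuous_fst.mul (continuous_subtype_val.comp continuous_snd))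

/-- The orbits of an open subgroup are open. -/
theorem isOpen_orbit (hR : Rp K Γ rep) {L : Subgroup G} (hL : IsOpen (L : Set G)) (f : SF K rep) :
    IsOpen {f' : SF K rep | ∃ k ∈ L, f' = hR.pp (k * (f : G))} := by
  rw [isOpen_iff_mem_nhds]
  rintro _ ⟨k, hk, rfl⟩
  have h1 := nhds_K hL (hR.pp (k * (f : G)) : G)
  have h2 : Tendsto (fun x : SF K rep => (x : G)) (𝓝 (hR.pp (k * (f : G))))
      (𝓝 (hR.pp (k * (f : G)) : G)) := continuous_subtype_val.continuousAt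
  filter_upwards [h2.eventually h1] with x hx
  refine ⟨(x : G) * (hR.pp (k * (f : G)) : G)⁻¹ * k, mul_mem hx hk, ?_⟩
  refine ((hR.dec_uniq x (hR.cc (k * (f : G))) ?_).1).symm
  have h3 := hR.dec (k * (f : G))
  calc (x : G) * (hR.cc (k * (f : G)) : G)
      = (x : G) * (hR.pp (k * (f : G)) : G)⁻¹ *
        ((hR.pp (k * (f : G)) : G) * (hR.cc (k * (f : G)) : G)) := by group
    _ = _ := by rw [h3]; group

end Top

section Meas

variable [TopologicalSpace G] [IsTopologicalGroup G] [MeasurableSpace G] [BorelSpace G]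

theorem inv_aux (hR : Rp K Γ rep) (hK : IsOpen (K : Set G)) [Countable Γ] {μ : Measure G}
    (hl : ∀ (g : G) (s : Set G), MeasurableSet s → μ ((fun x => g * x) ⁻¹' s) = μ s)
    (hr : ∀ (g : G) (s : Set G), MeasurableSet s → μ ((fun x => x * g) ⁻¹' s) = μ s)
    (g : G) {A : Set G} (hA : MeasurableSet A) (hA2 : A ⊆ SF K rep) :
    μ {f | f ∈ SF K rep ∧ (hR.pp (g * f) : G) ∈ A} = μ A := by
  have hSm : MeasurableSet (SF K rep) := (hR.isOpen_SF hK).measurableSet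
  have hE : ∀ γ : Γ, MeasurableSet {x : G | x ∈ A ∧ g⁻¹ * x * (γ : G) ∈ SF K rep} := fun γ =>
    hA.inter (((continuous_const_mul g⁻¹).mul_const (γ : G)).measurable hSm)
  have hE2 : ∀ γ : Γ, MeasurableSet {x : G | x ∈ SF K rep ∧ g * x * (γ : G)⁻¹ ∈ A} := fun γ =>
    hSm.inter (((continuous_const_mul g).mul_const (γ : G)⁻¹).measurable hA)
  have e1 : {f | f ∈ SF K rep ∧ (hR.pp (g * f) : G) ∈ A} =
      ⋃ γ : Γ, {x : G | x ∈ SF K rep ∧ g * x * (γ : G)⁻¹ ∈ A} := by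
    ext f
    simp only [Set.mem_ofPred_eq, Set.mem_iUnion]
    constructor
    · rintro ⟨hf, h⟩
      exact ⟨hR.cc (g * f), hf, h⟩
    · rintro ⟨γ, hf, h⟩
      refine ⟨hf, ?_⟩
      have h1 := (hR.dec_uniq (g := g * f) ⟨g * f * (γ : G)⁻¹, hA2 h⟩ γ (by
        change g * f * (γ : G)⁻¹ * (γ : G) = g * f
        group)).1
      rw [h1]
      exact h
  have e2 : A = ⋃ γ : Γ, {x : G | x ∈ A ∧ g⁻¹ * x * (γ : G) ∈ SF K rep} := by
    ext x
    simp only [Set.mem_iUnion, Set.mem_ofPred_eq]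
    constructor
    · intro hx
      obtain ⟨γ, hγ⟩ := hR.exists_dec (g⁻¹ * x)
      exact ⟨γ⁻¹, hx, by simpa using hγ⟩
    · rintro ⟨_, h, _⟩
      exact h
  have d1 : Pairwise (Function.onFun Disjoint
      fun γ : Γ => {x : G | x ∈ SF K rep ∧ g * x * (γ : G)⁻¹ ∈ A}) := by
    intro γ γ' hne
    refine Set.disjoint_left.2 ?_
    rintro x ⟨_, hx⟩ ⟨_, hx'⟩
    refine hne (hR.uniq (hA2 hx) (hA2 hx') (γ := γ) (γ' := γ') ?_).2
    group
  have d2 : Pairwise (Function.onFun Disjoint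
      fun γ : Γ => {x : G | x ∈ A ∧ g⁻¹ * x * (γ : G) ∈ SF K rep}) := by
    intro γ γ' hne
    refine Set.disjoint_left.2 ?_
    rintro x ⟨_, hx⟩ ⟨_, hx'⟩
    have h1 := (hR.uniq hx hx' (γ := γ⁻¹) (γ' := γ'⁻¹) (by push_cast; group)).2
    exact hne (inv_injective h1)
  have hone : ∀ γ : Γ, μ {x : G | x ∈ SF K rep ∧ g * x * (γ : G)⁻¹ ∈ A} =
      μ {x : G | x ∈ A ∧ g⁻¹ * x * (γ : G) ∈ SF K rep} := by
    intro γ
    have h1 : {x : G | x ∈ SF K rep ∧ g * x * (γ : G)⁻¹ ∈ A} = (fun x => g * x) ⁻¹'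
        ((fun x => x * (γ : G)⁻¹) ⁻¹' {x : G | x ∈ A ∧ g⁻¹ * x * (γ : G) ∈ SF K rep}) := by
      ext x
      simp only [Set.mem_ofPred_eq, Set.mem_preimage]
      have h2 : g⁻¹ * (g * x * (γ : G)⁻¹) * (γ : G) = x := by group
      rw [h2]
      exact and_comm
    rw [h1, hl, hr _ _ (hE γ)]
    exact (continuous_mul_const _).measurable (hE γ)
  rw [e1, measure_iUnion d1 hE2, tsum_congr hone, ← measure_iUnion d2 hE, ← e2]

/-- The normalised measure on the base. -/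
def hh (K : Subgroup G) (rep : G → G) (μ : Measure G) : Measure (SF K rep) :=
  (μ (SF K rep))⁻¹ • Measure.comap Subtype.val μ

theorem comap_apply' (hR : Rp K Γ rep) (hK : IsOpen (K : Set G)) (μ : Measure G)
    (A : Set (SF K rep)) :
    Measure.comap (Subtype.val : SF K rep → G) μ A = μ (Subtype.val '' A) :=
  (MeasurableEmbedding.subtype_coe (hR.isOpen_SF hK).measurableSet).comap_apply μ A

theorem hh_inv (hR : Rp K Γ rep) (hK : IsOpen (K : Set G)) [Countable Γ] {μ : Measure G}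
    (hl : ∀ (g : G) (s : Set G), MeasurableSet s → μ ((fun x => g * x) ⁻¹' s) = μ s)
    (hr : ∀ (g : G) (s : Set G), MeasurableSet s → μ ((fun x => x * g) ⁻¹' s) = μ s) (g : G) :
    MeasurePreserving (fun f : SF K rep => hR.pp (g * (f : G))) (hh K rep μ) (hh K rep μ) := by
  have hc : Continuous fun f : SF K rep => hR.pp (g * (f : G)) :=
    (hR.pp_cont hK).comp (continuous_const.mul continuous_subtype_val)
  have hm : Measurable fun f : SF K rep => hR.pp (g * (f : G)) := by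
    have := (Subtype.borelSpace (SF K rep) : BorelSpace (SF K rep))
    have h1 : Measurable fun f : SF K rep => (hR.pp (g * (f : G)) : G) := by
      have h2 : Continuous fun f : SF K rep => (hR.pp (g * (f : G)) : G) :=
        continuous_subtype_val.comp hc
      exact h2.measurable
    exact h1.subtype_mk
  refine ⟨hm, ?_⟩
  refine Measure.ext fun A hA => ?_
  rw [Measure.map_apply hm hA]
  unfold hh
  rw [Measure.smul_apply, Measure.smul_apply, hR.comap_apply' hK, hR.comap_apply' hK]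
  congr 1
  have hA' : MeasurableSet (Subtype.val '' A : Set G) :=
    (MeasurableEmbedding.subtype_coe (hR.isOpen_SF hK).measurableSet).measurableSet_image.2 hA
  rw [← hR.inv_aux hK hl hr g hA' (by rintro _ ⟨x, _, rfl⟩; exact x.2)]
  congr 1
  ext f
  simp only [Set.mem_image, Set.mem_preimage, Set.mem_ofPred_eq, Subtype.exists,
    exists_and_right, exists_eq_right]
  constructor
  · rintro ⟨hf, h⟩
    exact ⟨hf, (hR.pp (g * f)).2, h⟩
  · rintro ⟨hf, h1, h2⟩
    exact ⟨hf, h2⟩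

end Meas

end Rp

end

end Pool.Agent.H68.SU
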