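import Mathlib
import Pool.Agent.H68.SU.Abs
import Pool.Agent.H23.DM.Gsp
import Pool.Agent.H73.PZ.G2
import Pool.Agent.H73.PZ.G3
import Pool.Agent.H73.PZ.G6

/-!
MP_d9606f_gt, dimension theorem, Part 0.2 (helper68; proved).  The base of the suspension for a
lattice `Γ` of `SL_n(ℚ_p)`: `exists_susp`.
-/

open MeasureTheory Filter
open scoped Topology

namespace Pool.Agent.H68.SU

open Pool.Agent.H73.PZ Pool.Agent.H23.DM

/-- The base of the suspension: a compact homogeneous space `F` of `SL_n(ℚ_p)` with its invariant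
probability `h`, a locally constant cocycle `al` with values in `Γ`, trivial on `KM 2`, and a base
point `f0` over whose stabiliser the cocycle takes every value, with control of the size. -/
structure Susp {p : ℕ} [Fact p.Prime] {n : ℕ} (Γ : Subgroup (SLn p n)) (F : Type)
    [TopologicalSpace F] [MeasurableSpace F] [MulAction (SLn p n) F] (h : Measure F)
    (al : SLn p n → F → Γ) (f0 : F) (C : ℝ) : Prop where
  hsp : HSp p n F h
  mul : ∀ (g g' : SLn p n) (f : F), al (g * g') f = al g (g' • f) * al g' f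
  one : ∀ k ∈ KM p n 2, ∀ f : F, al k f = 1
  loc : ∀ (g : SLn p n) (f : F), ∀ᶠ q : SLn p n × F in 𝓝 (g, f), al q.1 q.2 = al g f
  base : ∀ γ : Γ, ∃ g : SLn p n, g • f0 = f0 ∧ al g f0 = γ ∧ size g ≤ C * size (γ : SLn p n)
  bound : ∀ (g : SLn p n) (f : F), size ((al g f : Γ) : SLn p n) ≤ C * size g

variable {p : ℕ} [Fact p.Prime] {n : ℕ}

/-- A discrete subgroup is countable. -/
theorem su_countable {Γ : Subgroup (SLn p n)} (hΓ : DiscreteTopology Γ) : Countable Γ := by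
  have h : (Set.univ : Set Γ) = ⋃ k : ℕ, {γ : Γ | size (γ : SLn p n) ≤ (k : ℝ)} := by
    ext γ
    simp only [Set.mem_univ, Set.mem_iUnion, Set.mem_ofPred_eq, true_iff]
    exact exists_nat_ge _
  have h2 : (⋃ k : ℕ, {γ : Γ | size (γ : SLn p n) ≤ (k : ℝ)}).Countable :=
    Set.countable_iUnion fun k => (lattice_finite_size hΓ (k : ℝ)).countable
  rw [← h] at h2
  exact Set.countable_univ_iff.1 h2

/-- The congruence subgroup `KM 2` meets no conjugate of a discrete subgroup. -/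
theorem su_free {Γ : Subgroup (SLn p n)} (hΓ : DiscreteTopology Γ) (g γ : SLn p n) (hγ : γ ∈ Γ)
    (h : g * γ * g⁻¹ ∈ KM p n 2) : γ = 1 := by
  have hpow : ∀ k : ℕ, (((⟨γ, hγ⟩ : Γ) ^ k : Γ) : SLn p n) = g⁻¹ * (g * γ * g⁻¹) ^ k * g := by
    intro k
    rw [SubmonoidClass.coe_pow, conj_pow]
    group
  have hfin : IsOfFinOrder (⟨γ, hγ⟩ : Γ) := by
    by_contra hf
    have h2 := injective_pow_iff_not_isOfFinOrder.2 hf
    refine Set.infinite_of_injective_forall_mem h2 (s := {γ : Γ | size (γ : SLn p n) ≤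
      size g * 1 * size g}) (fun k => ?_) (lattice_finite_size hΓ _)
    show size (((⟨γ, hγ⟩ : Γ) ^ k : Γ) : SLn p n) ≤ size g * 1 * size g
    rw [hpow]
    refine (size_mul_le _ _).trans ?_
    refine mul_le_mul_of_nonneg_right ?_ (size_nonneg _)
    refine (size_mul_le _ _).trans ?_
    rw [size_inv]
    exact mul_le_mul_of_nonneg_left (mem_KK.1 (KM_le_KK 2 (pow_mem h k))) (size_nonneg _)
  obtain ⟨k, hk, hk1⟩ := isOfFinOrder_iff_pow_eq_one.1 hfin
  have h3 := hpow k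
  rw [hk1, Subgroup.coe_one] at h3
  have h4 : (g * γ * g⁻¹) ^ k = 1 := by
    have h5 : (g * γ * g⁻¹) ^ k = g * (g⁻¹ * (g * γ * g⁻¹) ^ k * g) * g⁻¹ := by group
    rw [h5, ← h3]
    group
  have h6 := KM_two_torsionFree h hk h4
  have h7 : γ = g⁻¹ * (g * γ * g⁻¹) * g := by group
  rw [h7, h6]
  group

theorem su_rep {Γ : Subgroup (SLn p n)} (hΓ : IsLattice Γ) :
    ∃ rep : SLn p n → SLn p n, Rp (KM p n 2) Γ rep := by
  classical
  obtain ⟨R, hR⟩ := lattice_cocompact hΓ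
  obtain ⟨S, _, hS⟩ := KM_finite (p := p) (n := n) 2
  refine exists_Rp ((S ×ˢ R).image fun x => x.1 * x.2⁻¹) (fun g => ?_)
    (fun g γ hγ h => su_free hΓ.1 g γ hγ h)
  obtain ⟨γ, r, hr, k, hk, h⟩ := hR g⁻¹
  obtain ⟨s, hs, u, hu, hsu⟩ := hS k⁻¹ (inv_mem hk)
  refine ⟨u, hu, s * r⁻¹, ?_, (γ : SLn p n)⁻¹, inv_mem γ.2, ?_⟩
  · exact Finset.mem_image.2 ⟨(s, r), Finset.mem_product.2 ⟨hs, hr⟩, rfl⟩
  · have h1 : g = k⁻¹ * r⁻¹ * (γ : SLn p n)⁻¹ := by
      rw [← inv_inv g, h]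
      group
    rw [h1, hsu]
    group

theorem su_secondCountable : SecondCountableTopology (SLn p n) := by
  have : SecondCountableTopology (Matrix (Fin n) (Fin n) ℚ_[p]) := by
    change SecondCountableTopology (Fin n → Fin n → ℚ_[p])
    infer_instance
  exact Topology.IsEmbedding.subtypeVal.secondCountableTopology

/-- The size is bounded on compact sets. -/
theorem su_size_bdd {S : Set (SLn p n)} (hS : IsCompact S) :
    ∃ C : ℝ, 0 ≤ C ∧ ∀ g ∈ S, size g ≤ C := by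
  obtain ⟨t, _, hcov⟩ := hS.elim_nhds_subcover (fun k => {x : SLn p n | x * k⁻¹ ∈ KK p n}) (by
    intro k _
    have h1 : IsOpen {x : SLn p n | x * k⁻¹ ∈ KK p n} :=
      isOpen_KK.preimage (continuous_mul_const (k⁻¹))
    refine h1.mem_nhds ?_
    simp only [Set.mem_ofPred_eq, mul_inv_cancel]
    exact one_mem _)
  refine ⟨∑ k ∈ t, size k, Finset.sum_nonneg fun k _ => size_nonneg k, fun g hg => ?_⟩
  obtain ⟨k, hk⟩ := Set.mem_iUnion.1 (hcov hg)
  obtain ⟨hkt, hgk⟩ := Set.mem_iUnion.1 hk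
  have h1 : size g ≤ size (g * k⁻¹) * size k := by
    have h2 := size_mul_le (g * k⁻¹) k
    rwa [inv_mul_cancel_right] at h2
  have h3 : size (g * k⁻¹) ≤ 1 := hgk
  have h4 : size k ≤ ∑ k ∈ t, size k :=
    Finset.single_le_sum (f := fun k => size k) (fun k _ => size_nonneg k) hkt
  nlinarith [size_nonneg k, size_nonneg (g * k⁻¹)]

/-- PART 0.2.  The base of the suspension. -/
theorem exists_susp (hn : 2 ≤ n) {Γ : Subgroup (SLn p n)} (hΓ : IsLattice Γ) :
    ∃ (F : Type) (_ : TopologicalSpace F) (_ : CompactSpace F) (_ : T2Space F)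
      (_ : SecondCountableTopology F) (_ : MeasurableSpace F) (_ : BorelSpace F)
      (_ : MulAction (SLn p n) F) (_ : ContinuousSMul (SLn p n) F) (h : Measure F)
      (al : SLn p n → F → Γ) (f0 : F) (C : ℝ), Susp Γ F h al f0 C := by
  obtain ⟨rep, hR⟩ := su_rep hΓ
  obtain ⟨μ, hμ, hr, hμ1⟩ := exists_bihaar (p := p) hn
  have hcount : Countable Γ := su_countable hΓ.1
  have hsc : SecondCountableTopology (SLn p n) := su_secondCountable
  have hK : IsOpen (KM p n 2 : Set (SLn p n)) := isOpen_KM 2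
  have hKc : IsCompact (KM p n 2 : Set (SLn p n)) :=
    isCompact_KK.of_isClosed_subset (Subgroup.isClosed_of_isOpen _ hK) (KM_le_KK 2)
  have hSo : IsOpen (SF (KM p n 2) rep) := hR.isOpen_SF hK
  have hSc : IsCompact (SF (KM p n 2) rep) := hR.isCompact_SF hKc
  obtain ⟨C0, hC0, hC⟩ := su_size_bdd hSc
  have hl : ∀ (g : SLn p n) (s : Set (SLn p n)), MeasurableSet s →
      μ ((fun x => g * x) ⁻¹' s) = μ s := fun g s _ => measure_preimage_mul μ g s
  let iA : MulAction (SLn p n) (SF (KM p n 2) rep) := hR.act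
  have hsm : ∀ (g : SLn p n) (f : SF (KM p n 2) rep), g • f = hR.pp (g * (f : SLn p n)) :=
    fun g f => rfl
  have hSpos : 0 < μ (SF (KM p n 2) rep) := by
    refine hSo.measure_pos μ ?_
    obtain ⟨γ, hγ⟩ := hR.exists_dec 1
    exact ⟨_, hγ⟩
  have hSfin : μ (SF (KM p n 2) rep) ≠ ⊤ := hSc.measure_lt_top.ne
  have f0 : SF (KM p n 2) rep := hR.pp 1
  have hf0 : size (f0 : SLn p n) ≤ C0 := hC _ f0.2
  have hf0' : size ((f0 : SLn p n)⁻¹) ≤ C0 := by rw [size_inv]; exact hf0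
  refine ⟨SF (KM p n 2) rep, inferInstance, isCompact_iff_compactSpace.1 hSc, inferInstance,
    inferInstance, inferInstance, inferInstance, iA, ⟨hR.act_cont hK⟩, Rp.hh (KM p n 2) rep μ,
    hR.al, f0, C0 * C0, ?_⟩
  refine ⟨⟨⟨?_⟩, fun g => ?_, fun U hU hUn => ?_, fun l f => ?_, fun f f' => ?_⟩, fun g g' f => ?_,
    fun k hk f => ?_, fun g f => ?_, fun γ => ?_, fun g f => ?_⟩
  · unfold Rp.hh
    rw [Measure.smul_apply, hR.comap_apply' hK, Set.image_univ, Subtype.range_coe, smul_eq_mul]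
    exact ENNReal.inv_mul_cancel hSpos.ne' hSfin
  · exact hR.hh_inv hK hl hr g
  · unfold Rp.hh
    rw [Measure.smul_apply, hR.comap_apply' hK, smul_eq_mul]
    refine ENNReal.mul_pos (ENNReal.inv_ne_zero.2 hSfin) ?_
    exact ((hSo.isOpenMap_subtype_val U hU).measure_pos μ (hUn.image _)).ne'
  · exact hR.isOpen_orbit (isOpen_KM l) f
  · refine ⟨(f' : SLn p n) * (f : SLn p n)⁻¹, ?_⟩
    rw [hsm, inv_mul_cancel_right]
    exact hR.pp_self f'
  · exact hR.al_mul g g' f
  · exact hR.al_one hk f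
  · exact hR.al_loc hK g f
  · refine ⟨(f0 : SLn p n) * (γ : SLn p n) * (f0 : SLn p n)⁻¹, ?_⟩
    have h1 := hR.dec_uniq
      (g := (f0 : SLn p n) * (γ : SLn p n) * (f0 : SLn p n)⁻¹ * (f0 : SLn p n)) f0 γ
      (by group)
    refine ⟨h1.1, h1.2, ?_⟩
    refine (size_mul_le _ _).trans ?_
    have h2 := size_mul_le (f0 : SLn p n) (γ : SLn p n)
    have h3 : size (f0 : SLn p n) * size (γ : SLn p n) ≤ C0 * size (γ : SLn p n) :=
      mul_le_mul_of_nonneg_right hf0 (size_nonneg _)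
    calc size ((f0 : SLn p n) * (γ : SLn p n)) * size ((f0 : SLn p n)⁻¹)
        ≤ (C0 * size (γ : SLn p n)) * C0 :=
          mul_le_mul (h2.trans h3) hf0' (size_nonneg _) (mul_nonneg hC0 (size_nonneg _))
      _ = C0 * C0 * size (γ : SLn p n) := by ring
  · have h1 : ((hR.al g f : Γ) : SLn p n) =
        ((hR.pp (g * (f : SLn p n)) : SLn p n))⁻¹ * (g * (f : SLn p n)) := by
      have h2 := hR.dec (g * (f : SLn p n))
      rw [eq_inv_mul_iff_mul_eq]
      exact h2
    rw [h1]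
    have h3 : size ((hR.pp (g * (f : SLn p n)) : SLn p n))⁻¹ ≤ C0 := by
      rw [size_inv]
      exact hC _ (hR.pp (g * (f : SLn p n))).2
    have h4 : size (g * (f : SLn p n)) ≤ size g * C0 :=
      (size_mul_le _ _).trans (mul_le_mul_of_nonneg_left (hC _ f.2) (size_nonneg _))
    calc _ ≤ size ((hR.pp (g * (f : SLn p n)) : SLn p n))⁻¹ * size (g * (f : SLn p n)) :=
          size_mul_le _ _
      _ ≤ C0 * (size g * C0) := mul_le_mul h3 h4 (size_nonneg _) hC0
      _ = C0 * C0 * size g := by ring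

end Pool.Agent.H68.SU
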