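import Mathlib
import Pool.Agent.H68.SU.Main

/-!
MP_d9606f_gt, dimension theorem, Part 0.2 (helper68; proved).  The partition of `F` into the orbits
of the congruence subgroups `KM l`: it is finite and clopen, every locally constant function is
invariant under some `KM l`, `g • (k • f) = k' • (g • f)` with `k'` in `KM l` if `k` is in `KM l'`.
-/

open MeasureTheory Filter
open scoped Topology

namespace Pool.Agent.H68.SU

open Pool.Agent.H73.PZ Pool.Agent.H23.DM

set_option linter.unusedSectionVars false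

variable {p : ℕ} [Fact p.Prime] {n : ℕ} {F : Type} [TopologicalSpace F] [MeasurableSpace F]
  [MulAction (SLn p n) F]

/-- The orbit of `f` under `KM l`. -/
def KO (p : ℕ) [Fact p.Prime] (n : ℕ) {F : Type} [MulAction (SLn p n) F] (l : ℕ) (f : F) : Set F :=
  {f' : F | ∃ k ∈ KM p n l, f' = k • f}

theorem mem_KO {l : ℕ} {f f' : F} : f' ∈ KO p n l f ↔ ∃ k ∈ KM p n l, f' = k • f := Iff.rfl

theorem self_mem_KO (l : ℕ) (f : F) : f ∈ KO p n l f := ⟨1, one_mem _, (one_smul _ f).symm⟩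

theorem smul_mem_KO {l : ℕ} {k : SLn p n} (hk : k ∈ KM p n l) (f : F) : k • f ∈ KO p n l f :=
  ⟨k, hk, rfl⟩

/-- Two orbits are equal or disjoint. -/
theorem KO_eq {l : ℕ} {f f' : F} (h : f' ∈ KO p n l f) : KO p n l f' = KO p n l f := by
  obtain ⟨k, hk, rfl⟩ := h
  ext x
  constructor
  · rintro ⟨k', hk', rfl⟩
    exact ⟨k' * k, mul_mem hk' hk, (mul_smul k' k f).symm⟩
  · rintro ⟨k', hk', rfl⟩
    refine ⟨k' * k⁻¹, mul_mem hk' (inv_mem hk), ?_⟩
    rw [smul_smul, inv_mul_cancel_right]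

theorem KO_anti {l l' : ℕ} (h : l ≤ l') (f : F) : KO p n l' f ⊆ KO p n l f := by
  rintro _ ⟨k, hk, rfl⟩
  exact ⟨k, KM_anti h hk, rfl⟩

theorem isOpen_KO {h : Measure F} (hF : HSp p n F h) (l : ℕ) (f : F) : IsOpen (KO p n l f) :=
  hF.orb l f

theorem isClosed_KO {h : Measure F} (hF : HSp p n F h) (l : ℕ) (f : F) :
    IsClosed (KO p n l f) := by
  rw [← isOpen_compl_iff, isOpen_iff_mem_nhds]
  intro x hx
  filter_upwards [(isOpen_KO hF l x).mem_nhds (self_mem_KO l x)] with y hy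
  intro hy2
  refine hx ?_
  rw [← KO_eq hy2, KO_eq hy]
  exact self_mem_KO l x

/-- There are finitely many orbits. -/
theorem KO_finite [CompactSpace F] {h : Measure F} (hF : HSp p n F h) (l : ℕ) :
    ∃ T : Finset F, ∀ f : F, ∃ t ∈ T, f ∈ KO p n l t := by
  obtain ⟨T, hT⟩ := isCompact_univ.elim_finite_subcover (fun f : F => KO p n l f)
    (fun f => isOpen_KO hF l f) (fun f _ => Set.mem_iUnion.2 ⟨f, self_mem_KO l f⟩)
  refine ⟨T, fun f => ?_⟩
  obtain ⟨t, ht⟩ := Set.mem_iUnion.1 (hT (Set.mem_univ f))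
  obtain ⟨htT, hft⟩ := Set.mem_iUnion.1 ht
  exact ⟨t, htT, hft⟩

/-- The set of orbits is finite. -/
theorem KO_finite_range [CompactSpace F] {h : Measure F} (hF : HSp p n F h) (l : ℕ) :
    (Set.range fun f : F => KO p n l f).Finite := by
  obtain ⟨T, hT⟩ := KO_finite hF l
  refine (T.finite_toSet.image fun f : F => KO p n l f).subset ?_
  rintro _ ⟨f, rfl⟩
  obtain ⟨t, ht, hft⟩ := hT f
  exact ⟨t, ht, (KO_eq hft).symm⟩

/-- The orbits of `KM l` form a neighbourhood basis: an open set around `f` contains an orbit of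
some `KM l`, uniformly on compact spaces: a locally constant function is `KM l`-invariant. -/
theorem locconst_KM [CompactSpace F] [ContinuousSMul (SLn p n) F] {β : Type*} {φ : F → β}
    (hφ : ∀ f : F, ∀ᶠ f' in 𝓝 f, φ f' = φ f) :
    ∃ l : ℕ, ∀ l' ≥ l, ∀ k ∈ KM p n l', ∀ f : F, φ (k • f) = φ f := by
  have h1 : ∀ f : F, ∃ l : ℕ, ∃ V ∈ 𝓝 f, ∀ k ∈ KM p n l, ∀ f' ∈ V, φ (k • f') = φ f := by
    intro f
    have hc : Continuous fun q : SLn p n × F => q.1 • q.2 := continuous_smul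
    have ht : Tendsto (fun q : SLn p n × F => q.1 • q.2) (𝓝 (1, f)) (𝓝 f) := by
      have := hc.tendsto (1, f)
      simpa using this
    have h2 := ht.eventually (hφ f)
    rw [nhds_prod_eq] at h2
    obtain ⟨U, hU, V, hV, hUV⟩ := Filter.mem_prod_iff.1 h2
    obtain ⟨l, hl⟩ := exists_KM_subset hU
    exact ⟨l, V, hV, fun k hk f' hf' => hUV (Set.mk_mem_prod (hl hk) hf')⟩
  choose l V hV hlV using h1
  obtain ⟨T, _, hT⟩ := isCompact_univ.elim_nhds_subcover V (fun f _ => hV f)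
  refine ⟨∑ t ∈ T, l t, fun l' hl' k hk f => ?_⟩
  obtain ⟨t, ht⟩ := Set.mem_iUnion.1 (hT (Set.mem_univ f))
  obtain ⟨htT, hft⟩ := Set.mem_iUnion.1 ht
  have hlt : l t ≤ l' :=
    (Finset.single_le_sum (f := fun t => l t) (fun _ _ => Nat.zero_le _) htT).trans hl'
  rw [hlV t k (KM_anti hlt hk) f hft]
  have h3 := hlV t 1 (one_mem _) f hft
  rw [one_smul] at h3
  exact h3.symm

/-- A locally constant function is `KM l`-invariant; the form with sets. -/
theorem open_KM [CompactSpace F] [ContinuousSMul (SLn p n) F] {E : Set F} (hE : IsOpen E)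
    (hE' : IsClosed E) : ∃ l : ℕ, ∀ l' ≥ l, ∀ k ∈ KM p n l', ∀ f : F, k • f ∈ E ↔ f ∈ E := by
  obtain ⟨l, hl⟩ := locconst_KM (p := p) (n := n) (φ := fun f : F => f ∈ E) (by
    intro f
    by_cases hf : f ∈ E
    · filter_upwards [hE.mem_nhds hf] with x hx
      exact propext ⟨fun _ => hf, fun _ => hx⟩
    · filter_upwards [hE'.isOpen_compl.mem_nhds hf] with x hx
      exact propext ⟨fun h => absurd h hx, fun h => absurd h hf⟩)
  exact ⟨l, fun l' hl' k hk f => iff_of_eq (hl l' hl' k hk f)⟩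

/-- The orbits of the groups `KM l` form a basis of neighbourhoods. -/
theorem KO_basis [ContinuousSMul (SLn p n) F] {f : F} {U : Set F} (hU : U ∈ 𝓝 f) :
    ∃ l : ℕ, KO p n l f ⊆ U := by
  have hc : Continuous fun g : SLn p n => g • f := continuous_id.smul continuous_const
  have ht : Tendsto (fun g : SLn p n => g • f) (𝓝 1) (𝓝 f) := by
    have := hc.tendsto 1
    simpa using this
  obtain ⟨l, hl⟩ := exists_KM_subset (ht.eventually hU)
  refine ⟨l, ?_⟩
  rintro _ ⟨k, hk, rfl⟩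
  exact hl hk

/-- For every `g` and `l` there is `l'` such that `g` maps orbits of `KM l'` into orbits of
`KM l`. -/
theorem KO_smul (g : SLn p n) (l : ℕ) : ∃ l₀ : ℕ, ∀ l' ≥ l₀, ∀ f f' : F, f' ∈ KO p n l' f →
    g • f' ∈ KO p n l (g • f) := by
  obtain ⟨l₀, h⟩ := KM_conj g l
  refine ⟨l₀, fun l' hl' f f' hf' => ?_⟩
  obtain ⟨k, hk, rfl⟩ := hf'
  refine ⟨g * k * g⁻¹, h k (KM_anti hl' hk), ?_⟩
  rw [smul_smul, smul_smul]
  congr 1
  group

/-- All points of an orbit have orbits of the same positive measure. -/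
theorem KO_pos {h : Measure F} (hF : HSp p n F h) (l : ℕ) (f : F) : 0 < h (KO p n l f) :=
  hF.supp _ (isOpen_KO hF l f) ⟨f, self_mem_KO l f⟩

section Al

variable {Γ : Subgroup (SLn p n)} {h : Measure F} {al : SLn p n → F → Γ} {f0 : F} {C : ℝ}

theorem Susp.al_one (hS : Susp Γ F h al f0 C) (f : F) : al 1 f = 1 := hS.one 1 (one_mem _) f

theorem Susp.al_inv (hS : Susp Γ F h al f0 C) (g : SLn p n) (f : F) :
    al g⁻¹ (g • f) = (al g f)⁻¹ := by
  have h1 := hS.mul g⁻¹ g f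
  rw [inv_mul_cancel, hS.al_one] at h1
  exact (eq_inv_of_mul_eq_one_left h1.symm)

theorem Susp.al_loc (hS : Susp Γ F h al f0 C) (g : SLn p n) (f : F) :
    ∀ᶠ f' in 𝓝 f, al g f' = al g f := by
  have h1 := hS.loc g f
  rw [nhds_prod_eq] at h1
  have h2 := h1.curry
  exact h2.self_of_nhds

theorem Susp.al_KM [CompactSpace F] [ContinuousSMul (SLn p n) F] (hS : Susp Γ F h al f0 C)
    (g : SLn p n) : ∃ l : ℕ, ∀ l' ≥ l, ∀ k ∈ KM p n l', ∀ f : F, al g (k • f) = al g f :=
  locconst_KM fun f => hS.al_loc g f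

theorem Susp.al_finite [CompactSpace F] (hS : Susp Γ F h al f0 C) (g : SLn p n) :
    (Set.range (al g)).Finite := by
  choose V hV using fun f : F => Filter.eventually_iff_exists_mem.1 (hS.al_loc g f)
  obtain ⟨T, _, hT⟩ := isCompact_univ.elim_nhds_subcover V (fun f _ => (hV f).1)
  refine (T.finite_toSet.image (al g)).subset ?_
  rintro _ ⟨f, rfl⟩
  obtain ⟨t, ht⟩ := Set.mem_iUnion.1 (hT (Set.mem_univ f))
  obtain ⟨htT, hft⟩ := Set.mem_iUnion.1 ht
  exact ⟨t, htT, ((hV t).2 f hft).symm⟩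

/-- The cocycle is constant on small orbits of both variables. -/
theorem Susp.al_left (hS : Susp Γ F h al f0 C) {k : SLn p n} (hk : k ∈ KM p n 2) (g : SLn p n)
    (f : F) : al (k * g) f = al g f := by
  rw [hS.mul, hS.one k hk, one_mul]

theorem Susp.al_right (hS : Susp Γ F h al f0 C) {k : SLn p n} (hk : k ∈ KM p n 2) (g : SLn p n)
    (f : F) : al (g * k) f = al g (k • f) := by
  rw [hS.mul, hS.one k hk, mul_one]

end Al

end Pool.Agent.H68.SU
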