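import Mathlib
import Pool.Agent.H68.SU.Orb

/-!
MP_d9606f_gt, dimension theorem, Part 0.3 (helper68; proved).  The suspension `X = F × M`:
`g • (f, m) = (g • f, al g f • m)`, `D_g (f, m) = D_{al g f} (m)`.

* `Fib M D`: fibre data, an action of `Γ` on `M` by continuous maps with a continuous cocycle `D`.
* `hS.xact M`: the action of `SLn p n` on `F × M`; `xact_smul`, `continuous_xact` (joint continuity).
* `XSp p n X D`: a continuous cocycle on a `SLn p n`-space, trivial on `KM 2`.
* `hS.xsp`: the cocycle `xD al D` on `F × M` is one.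
* `XSp.bdd`: it is bounded on compact sets of the group.
* `hS.base_fib`: `D_γ (m) = D_g (f0, m)` with `size g ≤ C * size γ`, `g • (f0, m) = (f0, γ • m)`.
-/

open MeasureTheory Filter Matrix
open scoped Topology

set_option linter.unusedSectionVars false

namespace Pool.Agent.H68.SU

open Pool.Agent.H73.PZ Pool.Agent.H23.DM

/-- Fibre data: `Γ` acts on `M` by continuous maps, `D` is a continuous matrix valued cocycle over
the action whose value at `1` is symmetric (so an orthogonal projection). -/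
structure Fib {Γ : Type} [Group Γ] (M : Type) [TopologicalSpace M] [MulAction Γ M] {ι : Type}
    [Fintype ι] [DecidableEq ι] (D : Γ → M → Matrix ι ι ℝ) : Prop where
  act : ∀ γ : Γ, Continuous fun m : M => γ • m
  cont : ∀ γ : Γ, Continuous (D γ)
  mul : ∀ (γ γ' : Γ) (m : M), D (γ * γ') m = D γ (γ' • m) * D γ' m
  symm : ∀ m : M, (D 1 m)ᵀ = D 1 m

/-- A continuous matrix valued cocycle on a space with an action of `SLn p n`, trivial on `KM 2`,
whose value at `1` is symmetric (so an orthogonal projection). -/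
structure XSp (p : ℕ) [Fact p.Prime] (n : ℕ) (X : Type) [TopologicalSpace X]
    [MulAction (SLn p n) X] {ι : Type} [Fintype ι] [DecidableEq ι]
    (D : SLn p n → X → Matrix ι ι ℝ) : Prop where
  cont : Continuous fun q : SLn p n × X => D q.1 q.2
  mul : ∀ (g g' : SLn p n) (x : X), D (g * g') x = D g (g' • x) * D g' x
  symm : ∀ x : X, (D 1 x)ᵀ = D 1 x
  triv : ∀ k ∈ KM p n 2, ∀ x : X, D k x = D 1 x

variable {p : ℕ} [Fact p.Prime] {n : ℕ}

namespace XSp

variable {X : Type} [TopologicalSpace X] [MulAction (SLn p n) X] {ι : Type} [Fintype ι]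
  [DecidableEq ι] {D : SLn p n → X → Matrix ι ι ℝ}

theorem cont_right (hX : XSp p n X D) (g : SLn p n) : Continuous (D g) :=
  hX.cont.comp (continuous_const.prodMk continuous_id)

theorem idem (hX : XSp p n X D) (x : X) : D 1 x * D 1 x = D 1 x := by
  have h1 := hX.mul 1 1 x
  rw [one_smul, mul_one] at h1
  exact h1.symm

theorem right (hX : XSp p n X D) (g : SLn p n) (x : X) : D g x * D 1 x = D g x := by
  have h1 := hX.mul g 1 x
  rw [one_smul, mul_one] at h1
  exact h1.symm

theorem left (hX : XSp p n X D) (g : SLn p n) (x : X) : D 1 (g • x) * D g x = D g x := by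
  have h1 := hX.mul 1 g x
  rw [one_mul] at h1
  exact h1.symm

theorem dinv_mul (hX : XSp p n X D) (g : SLn p n) (x : X) : D g⁻¹ (g • x) * D g x = D 1 x := by
  have h1 := hX.mul g⁻¹ g x
  rw [inv_mul_cancel] at h1
  exact h1.symm

theorem dmul_inv (hX : XSp p n X D) (g : SLn p n) (x : X) :
    D g (g⁻¹ • x) * D g⁻¹ x = D 1 x := by
  have h1 := hX.mul g g⁻¹ x
  rw [mul_inv_cancel] at h1
  exact h1.symm

/-- Multiplication by an element of `KM 2` on the left. -/
theorem triv_left (hX : XSp p n X D) {k : SLn p n} (hk : k ∈ KM p n 2) (g : SLn p n) (x : X) :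
    D (k * g) x = D g x := by
  rw [hX.mul, hX.triv k hk, hX.left]

/-- The projection is invariant under `KM 2`. -/
theorem triv_proj (hX : XSp p n X D) {k : SLn p n} (hk : k ∈ KM p n 2) (x : X) :
    D 1 (k • x) = D 1 x := by
  have h1 := hX.dmul_inv k (k • x)
  rw [hX.triv k hk, hX.triv k⁻¹ (inv_mem hk), inv_smul_smul] at h1
  have h2 := hX.dinv_mul k x
  rw [hX.triv k hk, hX.triv k⁻¹ (inv_mem hk)] at h2
  -- `h1 : D 1 x * D 1 (k • x) = D 1 (k • x)`, `h2 : D 1 (k • x) * D 1 x = D 1 x`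
  have h3 := congrArg Matrix.transpose h1
  rw [Matrix.transpose_mul, hX.symm, hX.symm] at h3
  rw [← h3, h2]

/-- Multiplication by an element of `KM 2` on the right. -/
theorem triv_right (hX : XSp p n X D) {k : SLn p n} (hk : k ∈ KM p n 2) (g : SLn p n) (x : X) :
    D (g * k) x = D g (k • x) := by
  rw [hX.mul, hX.triv k hk, ← hX.triv_proj hk, hX.right]

theorem bdd [CompactSpace X] (hX : XSp p n X D) {S : Set (SLn p n)} (hS : IsCompact S) :
    ∃ C : ℝ, 0 ≤ C ∧ ∀ g ∈ S, ∀ x : X, ∀ i j, |D g x i j| ≤ C := by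
  have h1 : IsCompact (S ×ˢ (Set.univ : Set X)) := hS.prod isCompact_univ
  have h2 : ∀ i j, Continuous fun q : SLn p n × X => |D q.1 q.2 i j| := fun i j =>
    (hX.cont.matrix_elem i j).abs
  have h3 : Continuous fun q : SLn p n × X => ∑ i, ∑ j, |D q.1 q.2 i j| :=
    continuous_finsetSum _ fun i _ => continuous_finsetSum _ fun j _ => h2 i j
  obtain ⟨C, hC⟩ := (h1.image h3).bddAbove
  refine ⟨max C 0, le_max_right _ _, fun g hg x i j => ?_⟩
  have h4 : ∑ i, ∑ j, |D g x i j| ≤ C := hC ⟨(g, x), ⟨hg, Set.mem_univ x⟩, rfl⟩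
  have h5 : |D g x i j| ≤ ∑ j, |D g x i j| :=
    Finset.single_le_sum (f := fun j => |D g x i j|) (fun _ _ => abs_nonneg _) (Finset.mem_univ j)
  have h6 : ∑ j, |D g x i j| ≤ ∑ i, ∑ j, |D g x i j| :=
    Finset.single_le_sum (f := fun i => ∑ j, |D g x i j|)
      (fun _ _ => Finset.sum_nonneg fun _ _ => abs_nonneg _) (Finset.mem_univ i)
  exact (h5.trans (h6.trans h4)).trans (le_max_left _ _)

end XSp

variable {Γ : Subgroup (SLn p n)} {F : Type} [TopologicalSpace F] [MeasurableSpace F]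
  [MulAction (SLn p n) F] {h : Measure F} {al : SLn p n → F → Γ} {f0 : F} {C : ℝ}

/-- The cocycle on `F × M`. -/
def xD {M ι : Type} (al : SLn p n → F → Γ) (D : Γ → M → Matrix ι ι ℝ) (g : SLn p n) (x : F × M) :
    Matrix ι ι ℝ := D (al g x.1) x.2

namespace Susp

/-- The action of `SLn p n` on `F × M`. -/
@[reducible] def xact (hS : Susp Γ F h al f0 C) (M : Type) [MulAction Γ M] :
    MulAction (SLn p n) (F × M) where
  smul g x := (g • x.1, al g x.1 • x.2)
  one_smul x := by
    change ((1 : SLn p n) • x.1, al 1 x.1 • x.2) = x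
    rw [hS.al_one, one_smul, one_smul]
  mul_smul g g' x := by
    change ((g * g') • x.1, al (g * g') x.1 • x.2) =
      (g • (g' • x.1), al g (g' • x.1) • (al g' x.1 • x.2))
    rw [hS.mul, mul_smul, mul_smul]

/-- A function of the cocycle and the fibre variable is jointly continuous. -/
theorem cont_fib (hS : Susp Γ F h al f0 C) {M β : Type} [TopologicalSpace M] [TopologicalSpace β]
    {φ : Γ → M → β} (hφ : ∀ γ, Continuous (φ γ)) :
    Continuous fun q : SLn p n × (F × M) => φ (al q.1 q.2.1) q.2.2 := by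
  rw [continuous_iff_continuousAt]
  rintro ⟨g, f, m⟩
  have h1 : ContinuousAt (fun q : SLn p n × (F × M) => φ (al g f) q.2.2) (g, f, m) :=
    ((hφ _).comp (continuous_snd.comp continuous_snd)).continuousAt
  refine h1.congr ?_
  have h2 : Tendsto (fun q : SLn p n × (F × M) => (q.1, q.2.1)) (𝓝 (g, f, m)) (𝓝 (g, f)) :=
    (continuous_fst.prodMk (continuous_fst.comp continuous_snd)).tendsto (g, f, m)
  filter_upwards [h2.eventually (hS.loc g f)] with q hq
  change φ (al g f) q.2.2 = φ (al q.1 q.2.1) q.2.2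
  rw [← hq]

theorem xact_cont (hS : Susp Γ F h al f0 C) [ContinuousSMul (SLn p n) F] (M : Type)
    [TopologicalSpace M] [MulAction Γ M] (hM : ∀ γ : Γ, Continuous fun m : M => γ • m) :
    Continuous fun q : SLn p n × (F × M) => (q.1 • q.2.1, al q.1 q.2.1 • q.2.2) :=
  (continuous_fst.smul (continuous_fst.comp continuous_snd)).prodMk (hS.cont_fib hM)

theorem xact_csmul (hS : Susp Γ F h al f0 C) [ContinuousSMul (SLn p n) F] (M : Type)
    [TopologicalSpace M] [MulAction Γ M] (hM : ∀ γ : Γ, Continuous fun m : M => γ • m) :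
    @ContinuousSMul (SLn p n) (F × M) (hS.xact M).toSMul _ _ :=
  @ContinuousSMul.mk (SLn p n) (F × M) (hS.xact M).toSMul _ _ (hS.xact_cont M hM)

/-- Elements of `KM 2` act trivially on the fibre. -/
theorem xact_KM (hS : Susp Γ F h al f0 C) (M : Type) [MulAction Γ M] {k : SLn p n}
    (hk : k ∈ KM p n 2) (x : F × M) : (k • x.1, al k x.1 • x.2) = (k • x.1, x.2) := by
  rw [hS.one k hk, one_smul]

theorem xsp (hS : Susp Γ F h al f0 C) {M ι : Type} [TopologicalSpace M] [MulAction Γ M]
    [Fintype ι] [DecidableEq ι] {D : Γ → M → Matrix ι ι ℝ} (hM : Fib M D) :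
    @XSp p _ n (F × M) _ (hS.xact M) ι _ _ (xD al D) := by
  letI := hS.xact M
  refine ⟨hS.cont_fib hM.cont, fun g g' x => ?_, fun x => ?_, fun k hk x => ?_⟩
  · change D (al (g * g') x.1) x.2 = D (al g (g' • x.1)) (al g' x.1 • x.2) * D (al g' x.1) x.2
    rw [hS.mul, hM.mul]
  · change (D (al 1 x.1) x.2)ᵀ = D (al 1 x.1) x.2
    rw [hS.al_one, hM.symm]
  · change D (al k x.1) x.2 = D (al 1 x.1) x.2
    rw [hS.al_one, hS.one k hk]

/-- Every element of `Γ` is seen over the base point. -/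
theorem base_fib (hS : Susp Γ F h al f0 C) {M ι : Type} [MulAction Γ M] (D : Γ → M → Matrix ι ι ℝ)
    (γ : Γ) : ∃ g : SLn p n, size g ≤ C * size (γ : SLn p n) ∧
      ∀ m : M, (g • f0, al g f0 • m) = (f0, γ • m) ∧ xD al D g (f0, m) = D γ m := by
  obtain ⟨g, h1, h2, h3⟩ := hS.base γ
  refine ⟨g, h3, fun m => ⟨by rw [h1, h2], ?_⟩⟩
  unfold xD
  change D (al g f0) m = D γ m
  rw [h2]

end Susp

end Pool.Agent.H68.SU
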